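import Mathlib
import Pool.Agent.N173.BG.Stm
import Pool.Agent.TH858.GP.Indep

/-!
Project BG (helper173), part BOG (helper674): Bogolyubov's argument for `K X - K X`.
-/

set_option autoImplicit false

namespace Pool.Agent.N674.BG

open Finset Pool.Agent.TH858 Pool.Agent.TH858.GP Pool.Agent.N173.BG

variable {N : ℕ} [NeZero N]

lemma ψ_sum {ι : Type} (s : Finset ι) (c : ι → ZMod N) : ψ (∑ i ∈ s, c i) = ∏ i ∈ s, ψ (c i) := by
  classical
  induction s using Finset.induction_on with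
  | empty => rw [sum_empty, prod_empty, ψ_zero]
  | insert a s ha ih => rw [sum_insert ha, prod_insert ha, ψ_add, ih]

/-- The pairs of tuples. -/
noncomputable def FF (K : ℕ) (X : Finset (ZMod N)) : Finset (Fin K → ZMod N × ZMod N) :=
  Fintype.piFinset fun _ => X ×ˢ X

lemma wt_pow (K : ℕ) (X : Finset (ZMod N)) (g : ZMod N) :
    ((wt X g : ℝ) : ℂ) ^ K = ∑ f ∈ FF K X, ψ (g * ∑ i, ((f i).1 - (f i).2)) := by
  classical
  have h1 : ((wt X g : ℝ) : ℂ) ^ K = ∏ _i : Fin K, ∑ p ∈ X ×ˢ X, ψ (g * (p.1 - p.2)) := by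
    rw [prod_const, card_univ, Fintype.card_fin, wt_expand]
  rw [h1, prod_univ_sum]
  refine sum_congr rfl fun f _ => ?_
  rw [mul_sum, ψ_sum]

lemma fourierK (K : ℕ) (X : Finset (ZMod N)) (z : ZMod N)
    (h : ∀ f ∈ FF K X, ∑ i, ((f i).1 - (f i).2) + z ≠ 0) :
    ∑ g : ZMod N, wt X g ^ K * (ψ (g * z)).re = 0 := by
  have h1 : ∑ g : ZMod N, ((wt X g : ℝ) : ℂ) ^ K * ψ (g * z) = 0 := by
    calc ∑ g : ZMod N, ((wt X g : ℝ) : ℂ) ^ K * ψ (g * z)
        = ∑ g : ZMod N, ∑ f ∈ FF K X, ψ (g * (∑ i, ((f i).1 - (f i).2) + z)) := by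
          refine sum_congr rfl fun g _ => ?_
          rw [wt_pow, sum_mul]
          refine sum_congr rfl fun f _ => ?_
          rw [← ψ_add, mul_add]
      _ = ∑ f ∈ FF K X, ∑ g : ZMod N, ψ (g * (∑ i, ((f i).1 - (f i).2) + z)) := sum_comm
      _ = 0 := by
          refine sum_eq_zero fun f hf => ?_
          have h2 := AddChar.sum_mulShift (R' := ℂ) (∑ i, ((f i).1 - (f i).2) + z)
            (ZMod.isPrimitive_stdAddChar N)
          rw [if_neg (h f hf)] at h2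
          exact_mod_cast h2
  have h2 := congrArg Complex.re h1
  rw [Complex.re_sum, Complex.zero_re] at h2
  rw [← h2]
  refine sum_congr rfl fun g _ => ?_
  rw [← Complex.ofReal_pow, Complex.re_ofReal_mul]

theorem t_BOG : S_BOG := by
  classical
  intro N _ X M K θ hX hK hθ hθ1 hM hMK x hx
  by_contra hc
  have hf : ∀ f ∈ FF K X, ∑ i, ((f i).1 - (f i).2) + -x ≠ 0 := by
    intro f hf h0
    apply hc
    unfold FF at hf
    rw [Fintype.mem_piFinset] at hf
    refine ⟨fun i => (f i).1, fun i => (f i).2, fun i => (mem_product.1 (hf i)).1,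
      fun i => (mem_product.1 (hf i)).2, ?_⟩
    rw [sum_sub_distrib] at h0
    linear_combination -h0
  have h0 := fourierK K X (-x) hf
  have hre : ∀ g : ZMod N, (ψ (g * -x)).re = (ψ (g * x)).re := by
    intro g
    rw [mul_neg, ψ_neg, Complex.conj_re]
  obtain ⟨n, rfl⟩ : ∃ n, K = n + 1 := ⟨K - 1, by omega⟩
  have hXp : (0 : ℝ) < X.card := by exact_mod_cast hX.card_pos
  have hwt0 : wt X 0 = (X.card : ℝ) ^ 2 := by
    unfold wt
    have : ∑ y ∈ X, ψ ((0 : ZMod N) * y) = (X.card : ℂ) := by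
      rw [sum_congr rfl (fun y _ => by rw [zero_mul, ψ_zero] : ∀ y ∈ X, ψ ((0 : ZMod N) * y) = 1)]
      simp
    rw [this, Complex.norm_natCast]
  have h0mem : (0 : ZMod N) ∈ Sp X θ := by
    unfold Sp
    rw [mem_filter]
    refine ⟨mem_univ _, ?_⟩
    rw [hwt0]
    nlinarith [sq_nonneg (X.card : ℝ)]
  have hpos : ∀ g ∈ Sp X θ, 0 ≤ wt X g ^ (n + 1) * (ψ (g * -x)).re := by
    intro g hg
    rw [hre, re_ψ_nn]
    refine mul_nonneg (pow_nonneg (wt_nonneg _ _) _) ?_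
    have h1 := hx g hg
    have h2 : 0 ≤ CB.nn (g * x) := CB.nint_nonneg _
    apply Real.cos_nonneg_of_mem_Icc
    constructor
    · have : 0 ≤ 2 * Real.pi * CB.nn (g * x) := by positivity
      linarith [Real.pi_pos]
    · nlinarith [Real.pi_pos]
  have hS : ((X.card : ℝ) ^ 2) ^ (n + 1) ≤ ∑ g ∈ Sp X θ, wt X g ^ (n + 1) * (ψ (g * -x)).re := by
    have h1 := single_le_sum hpos h0mem
    rw [zero_mul, ψ_zero, Complex.one_re, mul_one, hwt0] at h1
    exact h1
  have hC : -(∑ g ∈ (Sp X θ)ᶜ, wt X g ^ (n + 1)) ≤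
      ∑ g ∈ (Sp X θ)ᶜ, wt X g ^ (n + 1) * (ψ (g * -x)).re := by
    rw [← sum_neg_distrib]
    refine sum_le_sum fun g _ => ?_
    have h3 : -1 ≤ (ψ (g * -x)).re := by
      have := Complex.abs_re_le_norm (ψ (g * -x))
      rw [ψ_norm] at this
      exact (abs_le.mp this).1
    have h4 : 0 ≤ wt X g ^ (n + 1) := pow_nonneg (wt_nonneg X g) _
    nlinarith
  have hcomp : ∑ g ∈ (Sp X θ)ᶜ, wt X g ^ (n + 1) ≤
      ((1 - θ) * (X.card : ℝ) ^ 2) ^ n * (N * X.card) := by
    calc ∑ g ∈ (Sp X θ)ᶜ, wt X g ^ (n + 1)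
        ≤ ∑ g ∈ (Sp X θ)ᶜ, ((1 - θ) * (X.card : ℝ) ^ 2) ^ n * wt X g := by
          refine sum_le_sum fun g hg => ?_
          unfold Sp at hg
          rw [mem_compl, mem_filter] at hg
          push Not at hg
          rw [pow_succ]
          exact mul_le_mul_of_nonneg_right
            (pow_le_pow_left₀ (wt_nonneg _ _) (hg (mem_univ g)).le _) (wt_nonneg _ _)
      _ ≤ ∑ g : ZMod N, ((1 - θ) * (X.card : ℝ) ^ 2) ^ n * wt X g := by
          refine sum_le_sum_of_subset_of_nonneg (subset_univ _) fun g _ _ => ?_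
          refine mul_nonneg (pow_nonneg (mul_nonneg (by linarith) (sq_nonneg _)) _) (wt_nonneg _ _)
      _ = ((1 - θ) * (X.card : ℝ) ^ 2) ^ n * (N * X.card) := by
          rw [← mul_sum, sum_wt]
  have hexp : (1 - θ) ^ n ≤ Real.exp (-(M : ℝ)) := by
    have h1 : 1 - θ ≤ Real.exp (-θ) := by
      have := Real.add_one_le_exp (-θ)
      linarith
    calc (1 - θ) ^ n ≤ (Real.exp (-θ)) ^ n := pow_le_pow_left₀ (by linarith) h1 n
      _ = Real.exp (n * (-θ)) := by rw [← Real.exp_nat_mul]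
      _ ≤ Real.exp (-(M : ℝ)) := by
          apply Real.exp_le_exp.2
          push_cast at hMK
          nlinarith
  have hN : (N : ℝ) ≤ Real.exp M * X.card / 4 := by linarith
  have hfin : ((1 - θ) * (X.card : ℝ) ^ 2) ^ n * (N * X.card) ≤ ((X.card : ℝ) ^ 2) ^ (n + 1) / 4 := by
    rw [mul_pow]
    have hb : 0 ≤ ((X.card : ℝ) ^ 2) ^ n := by positivity
    have h1 : (1 - θ) ^ n * (N * X.card) ≤ Real.exp (-(M : ℝ)) * ((Real.exp M * X.card / 4) * X.card) := by
      refine mul_le_mul hexp (mul_le_mul_of_nonneg_right hN hXp.le) (by positivity) (Real.exp_nonneg _)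
    have h2 : Real.exp (-(M : ℝ)) * ((Real.exp M * X.card / 4) * X.card) = (X.card : ℝ) ^ 2 / 4 := by
      have h3 : Real.exp (-(M : ℝ)) * Real.exp M = 1 := by
        rw [← Real.exp_add, neg_add_cancel, Real.exp_zero]
      calc Real.exp (-(M : ℝ)) * ((Real.exp M * X.card / 4) * X.card)
          = (Real.exp (-(M : ℝ)) * Real.exp M) * ((X.card : ℝ) ^ 2 / 4) := by ring
        _ = (X.card : ℝ) ^ 2 / 4 := by rw [h3, one_mul]
    rw [h2] at h1
    calc (1 - θ) ^ n * ((X.card : ℝ) ^ 2) ^ n * (N * X.card)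
        = ((X.card : ℝ) ^ 2) ^ n * ((1 - θ) ^ n * (N * X.card)) := by ring
      _ ≤ ((X.card : ℝ) ^ 2) ^ n * ((X.card : ℝ) ^ 2 / 4) := mul_le_mul_of_nonneg_left h1 hb
      _ = ((X.card : ℝ) ^ 2) ^ (n + 1) / 4 := by ring
  rw [← sum_add_sum_compl (Sp X θ)] at h0
  have hp : 0 < ((X.card : ℝ) ^ 2) ^ (n + 1) := by positivity
  linarith

end Pool.Agent.N674.BG
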